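import Pool.Statements.S12344
-- import your own Pool.Agent.* helpers here

set_option autoImplicit false
open Pool Pool.MP_f0e024_co

namespace Pool.Agent.S12344

/-- neighbourhoods of the 11-vertex graph, as bit masks -/
def nb : List ℕ := [576, 1584, 1696, 1504, 1026, 782, 1545, 1548, 40, 231, 222]

def adjB (a b : Fin 11) : Bool := (nb.getD a.val 0).testBit b.val

theorem adjB_symm : ∀ a b : Fin 11, adjB a b = adjB b a := by decide +kernel

theorem adjB_irrefl : ∀ a : Fin 11, adjB a a = false := by decide +kernel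

/-- the graph: perfect, uniquely 3-colourable, on 11 vertices with 22 edges -/
def G : SimpleGraph (Fin 11) where
  Adj a b := adjB a b = true
  symm := ⟨fun a b h => by rw [adjB_symm]; exact h⟩
  loopless := ⟨fun a h => by rw [adjB_irrefl] at h; exact Bool.false_ne_true h⟩

/-- the colour classes -/
def cls (a : Fin 11) : Fin 3 := if a.val < 4 then 0 else if a.val < 8 then 1 else 2

theorem cls_proper : ∀ a b : Fin 11, adjB a b = true → cls a ≠ cls b := by decide +kernel

def col : G.Coloring (Fin 3) := SimpleGraph.Coloring.mk cls (fun {a b} h => cls_proper a b h)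

/-- all triangles -/
def tris : List (Fin 11 × Fin 11 × Fin 11) :=
  [(0, 6, 9), (1, 4, 10), (1, 5, 9), (2, 5, 9), (2, 7, 9), (2, 7, 10), (3, 5, 8), (3, 6, 10),
   (3, 7, 10)]

theorem tris_ok : ∀ t ∈ tris, adjB t.1 t.2.1 = true ∧ adjB t.1 t.2.2 = true ∧
    adjB t.2.1 t.2.2 = true ∧ t.1 ≠ t.2.1 ∧ t.1 ≠ t.2.2 ∧ t.2.1 ≠ t.2.2 := by decide +kernel

/-- bipartitions of the maximal triangle-free vertex sets -/
def bips : List (ℕ × ℕ) :=
  [(15, 240), (15, 464), (263, 240), (177, 520), (536, 224), (15, 784), (326, 536), (387, 536),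
   (450, 536), (15, 1056), (29, 1056), (1057, 326), (1057, 340), (1057, 450), (1057, 464),
   (1057, 536), (15, 1792), (29, 1792), (326, 1536), (340, 1536), (387, 1536), (177, 1792),
   (450, 1536), (240, 1792)]

theorem bips_ok : ∀ p ∈ bips, ∀ a b : Fin 11, adjB a b = true →
    ¬ (p.1.testBit a.val = true ∧ p.1.testBit b.val = true) ∧
    ¬ (p.2.testBit a.val = true ∧ p.2.testBit b.val = true) := by decide +kernel

theorem cover : ∀ m < 2 ^ 11,
    (tris.any (fun t => m.testBit t.1.val && m.testBit t.2.1.val && m.testBit t.2.2.val)) = true ∨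
    (bips.any (fun p => m &&& (p.1 ||| p.2) == m)) = true := by decide +kernel

theorem cover' (S : Finset (Fin 11)) :
    (∃ t ∈ tris, t.1 ∈ S ∧ t.2.1 ∈ S ∧ t.2.2 ∈ S) ∨
    (∃ p ∈ bips, ∀ a ∈ S, p.1.testBit a.val = true ∨ p.2.testBit a.val = true) := by
  classical
  let f : Fin 11 → Bool := fun i => decide (i ∈ S)
  have hbit : ∀ i : Fin 11, (Nat.ofBits f).testBit i.val = decide (i ∈ S) := by
    intro i
    rw [Nat.testBit_ofBits_lt f i.val i.isLt]
  rcases cover (Nat.ofBits f) (Nat.ofBits_lt_two_pow f) with h | h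
  · left
    rw [List.any_eq_true] at h
    obtain ⟨t, ht, h⟩ := h
    simp only [Bool.and_eq_true, hbit, decide_eq_true_eq] at h
    exact ⟨t, ht, h.1.1, h.1.2, h.2⟩
  · right
    rw [List.any_eq_true] at h
    obtain ⟨p, hp, h⟩ := h
    refine ⟨p, hp, fun a ha => ?_⟩
    have h1 : Nat.ofBits f &&& (p.1 ||| p.2) = Nat.ofBits f := by simpa using h
    have h2 : (Nat.ofBits f).testBit a.val = true := by rw [hbit]; simpa using ha
    rw [← h1, Nat.testBit_and, Nat.testBit_or] at h2
    simp only [Bool.and_eq_true, Bool.or_eq_true] at h2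
    exact h2.2

theorem perfect : ∀ S : Finset (Fin 11), ∃ K : Finset (Fin 11), K ⊆ S ∧
    G.IsClique (K : Set (Fin 11)) ∧ (G.induce (S : Set (Fin 11))).Colorable K.card := by
  classical
  intro S
  rcases cover' S with ⟨t, ht, h1, h2, h3⟩ | ⟨p, hp, hcov⟩
  · obtain ⟨e1, e2, e3, n1, n2, n3⟩ := tris_ok t ht
    refine ⟨{t.1, t.2.1, t.2.2}, ?_, ?_, ?_⟩
    · intro x hx
      simp only [Finset.mem_insert, Finset.mem_singleton] at hx
      rcases hx with rfl | rfl | rfl <;> assumption
    · have g1 : G.Adj t.1 t.2.1 := e1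
      have g2 : G.Adj t.1 t.2.2 := e2
      have g3 : G.Adj t.2.1 t.2.2 := e3
      intro x hx y hy hxy
      simp only [Finset.coe_insert, Finset.coe_singleton, Set.mem_insert_iff,
        Set.mem_singleton_iff] at hx hy
      rcases hx with rfl | rfl | rfl <;> rcases hy with rfl | rfl | rfl <;>
        first
          | exact absurd rfl hxy
          | assumption
          | exact g1.symm
          | exact g2.symm
          | exact g3.symm
    · have hc : ({t.1, t.2.1, t.2.2} : Finset (Fin 11)).card = 3 := by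
        rw [Finset.card_insert_of_notMem, Finset.card_insert_of_notMem, Finset.card_singleton]
        · simpa using n3
        · simp only [Finset.mem_insert, Finset.mem_singleton, not_or]
          exact ⟨n1, n2⟩
      rw [hc]
      exact ⟨SimpleGraph.Coloring.mk (fun v => cls v.1)
        (fun {a b} h => cls_proper a.1 b.1 h)⟩
  · by_cases hE : ∃ a ∈ S, ∃ b ∈ S, adjB a b = true
    · obtain ⟨a, ha, b, hb, hab⟩ := hE
      have hne : a ≠ b := by
        rintro rfl
        rw [adjB_irrefl] at hab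
        exact Bool.false_ne_true hab
      have g1 : G.Adj a b := hab
      refine ⟨{a, b}, ?_, ?_, ?_⟩
      · intro x hx
        simp only [Finset.mem_insert, Finset.mem_singleton] at hx
        rcases hx with rfl | rfl <;> assumption
      · intro x hx y hy hxy
        simp only [Finset.coe_insert, Finset.coe_singleton, Set.mem_insert_iff,
          Set.mem_singleton_iff] at hx hy
        rcases hx with rfl | rfl <;> rcases hy with rfl | rfl <;>
          first
            | exact absurd rfl hxy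
            | assumption
            | exact g1.symm
      · rw [Finset.card_pair hne]
        refine ⟨SimpleGraph.Coloring.mk
          (fun v => if p.1.testBit v.1.val = true then (0 : Fin 2) else 1) ?_⟩
        intro u v huv
        have hadj : adjB u.1 v.1 = true := huv
        obtain ⟨k1, k2⟩ := bips_ok p hp u.1 v.1 hadj
        have cu := hcov u.1 (by exact_mod_cast u.2)
        have cv := hcov v.1 (by exact_mod_cast v.2)
        by_cases hu : p.1.testBit u.1.val = true
        · by_cases hv : p.1.testBit v.1.val = true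
          · exact absurd ⟨hu, hv⟩ k1
          · simp [hu, hv]
        · by_cases hv : p.1.testBit v.1.val = true
          · simp [hu, hv]
          · exact absurd ⟨cu.resolve_left hu, cv.resolve_left hv⟩ k2
    · by_cases hS : S.Nonempty
      · obtain ⟨v, hv⟩ := hS
        refine ⟨{v}, by simpa using hv, by simp, ?_⟩
        rw [Finset.card_singleton]
        refine ⟨SimpleGraph.Coloring.mk (fun _ => (0 : Fin 1)) ?_⟩
        intro a b hab
        exact absurd ⟨a.1, by exact_mod_cast a.2, b.1, by exact_mod_cast b.2, hab⟩ hE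
      · rw [Finset.not_nonempty_iff_eq_empty] at hS
        subst hS
        refine ⟨∅, by simp, by simp, ?_⟩
        rw [Finset.card_empty]
        refine ⟨SimpleGraph.Coloring.mk (fun v => absurd v.2 (by simp)) ?_⟩
        intro a
        exact absurd a.2 (by simp)

theorem tri : G.IsNClique 3 ({3, 7, 10} : Finset (Fin 11)) := by
  have g1 : G.Adj 3 7 := by show adjB 3 7 = true; decide +kernel
  have g2 : G.Adj 3 10 := by show adjB 3 10 = true; decide +kernel
  have g3 : G.Adj 7 10 := by show adjB 7 10 = true; decide +kernel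
  rw [SimpleGraph.is3Clique_triple_iff]
  exact ⟨g1, g2, g3⟩

theorem chrom : G.chromaticNumber = (3 : ℕ) := by
  apply le_antisymm
  · exact SimpleGraph.Colorable.chromaticNumber_le ⟨col⟩
  · have := tri.isClique.card_le_chromaticNumber
    rwa [tri.card_eq] at this

/-- last part of the exhaustive search -/
def SC (c0 c1 c2 c3 c4 c5 c6 c7 c8 c9 c10 : Fin 3) : Prop :=
    (c0 = c1 ∧ c1 = c2 ∧ c2 = c3) ∧ (c4 = c5 ∧ c5 = c6 ∧ c6 = c7) ∧ (c8 = c9 ∧ c9 = c10) ∧
      c0 ≠ c4 ∧ c0 ≠ c8 ∧ c4 ≠ c8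

instance (c0 c1 c2 c3 c4 c5 c6 c7 c8 c9 c10 : Fin 3) :
    Decidable (SC c0 c1 c2 c3 c4 c5 c6 c7 c8 c9 c10) := by
  unfold SC; infer_instance

/-- middle part of the exhaustive search -/
def SB (c2 c3 c5 c6 c7 c9 c10 : Fin 3) : Prop :=
    ∀ c1 : Fin 3, c1 ≠ c5 → c1 ≠ c9 → c1 ≠ c10 → ∀ c4 : Fin 3, c1 ≠ c4 → c4 ≠ c10 →
    ∀ c8 : Fin 3, c3 ≠ c8 → c5 ≠ c8 → ∀ c0 : Fin 3, c0 ≠ c6 → c0 ≠ c9 →
    SC c0 c1 c2 c3 c4 c5 c6 c7 c8 c9 c10

instance (c2 c3 c5 c6 c7 c9 c10 : Fin 3) : Decidable (SB c2 c3 c5 c6 c7 c9 c10) := by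
  unfold SB; infer_instance

/-- proper colourings: exhaustive search with pruning -/
theorem search : ∀ c3 c7 : Fin 3, c3 ≠ c7 → ∀ c10 : Fin 3, c3 ≠ c10 → c7 ≠ c10 →
    ∀ c6 : Fin 3, c3 ≠ c6 → c6 ≠ c10 → ∀ c2 : Fin 3, c2 ≠ c7 → c2 ≠ c10 →
    ∀ c9 : Fin 3, c2 ≠ c9 → c6 ≠ c9 → c7 ≠ c9 → ∀ c5 : Fin 3, c2 ≠ c5 → c3 ≠ c5 → c5 ≠ c9 →
    SB c2 c3 c5 c6 c7 c9 c10 := by
  decide +kernel

theorem edges_ok : adjB 3 7 ∧ adjB 3 10 ∧ adjB 7 10 ∧ adjB 3 6 ∧ adjB 6 10 ∧ adjB 2 7 ∧
    adjB 2 10 ∧ adjB 2 9 ∧ adjB 6 9 ∧ adjB 7 9 ∧ adjB 2 5 ∧ adjB 3 5 ∧ adjB 5 9 ∧ adjB 1 5 ∧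
    adjB 1 9 ∧ adjB 1 10 ∧ adjB 1 4 ∧ adjB 4 10 ∧ adjB 3 8 ∧ adjB 5 8 ∧ adjB 0 6 ∧ adjB 0 9 := by
  decide +kernel

theorem colouring_iff (c : G.Coloring (Fin 3)) (x y : Fin 11) : c x = c y ↔ cls x = cls y := by
  obtain ⟨e1, e2, e3, e4, e5, e6, e7, e8, e9, e10, e11, e12, e13, e14, e15, e16, e17, e18, e19,
    e20, e21, e22⟩ := edges_ok
  have V : ∀ a b : Fin 11, adjB a b = true → c a ≠ c b := fun a b h => c.valid h
  obtain ⟨⟨a1, a2, a3⟩, ⟨b1, b2, b3⟩, ⟨d1, d2⟩, n1, n2, n3⟩ :=
    search (c 3) (c 7) (V _ _ e1) (c 10) (V _ _ e2) (V _ _ e3) (c 6) (V _ _ e4) (V _ _ e5) (c 2)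
      (V _ _ e6) (V _ _ e7) (c 9) (V _ _ e8) (V _ _ e9) (V _ _ e10) (c 5) (V _ _ e11)
      (V _ _ e12) (V _ _ e13) (c 1) (V _ _ e14) (V _ _ e15) (V _ _ e16) (c 4) (V _ _ e17)
      (V _ _ e18) (c 8) (V _ _ e19) (V _ _ e20) (c 0) (V _ _ e21) (V _ _ e22)
  have hval : ∀ z : Fin 11, c z = if cls z = 0 then c 0 else if cls z = 1 then c 4 else c 8 := by
    intro z
    fin_cases z <;> simp [cls, a1, a2, a3, b1, b2, b3, d1, d2]
  rw [hval x, hval y]
  have hx : cls x = 0 ∨ cls x = 1 ∨ cls x = 2 := by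
    generalize cls x = q
    revert q
    decide
  have hy : cls y = 0 ∨ cls y = 1 ∨ cls y = 2 := by
    generalize cls y = q
    revert q
    decide
  rcases hx with hx | hx | hx <;> rcases hy with hy | hy | hy <;>
    simp [hx, hy, n1, n2, n3, n1.symm, n2.symm, n3.symm]

/-- adjacency in `G + xy` -/
def adjP (x y a b : Fin 11) : Bool := adjB a b || ((a == x && b == y) || (a == y && b == x))

theorem noK4 : ∀ x ∈ ([0, 4, 8] : List (Fin 11)), ∀ y : Fin 11, cls x = cls y → x ≠ y →
    ∀ a b : Fin 11, a < b → adjP x y a b = true → ∀ c : Fin 11, b < c → adjP x y a c = true →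
    adjP x y b c = true → ∀ d : Fin 11, c < d → adjP x y a d = true → adjP x y b d = true →
    adjP x y c d = false := by
  decide +kernel

theorem not_crit (x y : Fin 11) (hx : x ∈ ([0, 4, 8] : List (Fin 11))) (hxy : cls x = cls y)
    (hne : x ≠ y) (K : Finset (Fin 11))
    (hK : (G ⊔ SimpleGraph.fromEdgeSet {s(x, y)}).IsClique (K : Set (Fin 11)))
    (hT : ∀ T : Finset (Fin 11), G.IsClique (T : Set (Fin 11)) → T.card < K.card) : False := by
  have h4 : 4 ≤ K.card := by
    have := hT _ tri.isClique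
    rw [tri.card_eq] at this
    omega
  obtain ⟨L, hL, hLc⟩ := Finset.exists_subset_card_eq h4
  let e := L.orderEmbOfFin hLc
  have hadj : ∀ i j : Fin 4, i < j → adjP x y (e i) (e j) = true := by
    intro i j hij
    have hi : e i ∈ (K : Set (Fin 11)) := by
      exact_mod_cast hL (L.orderEmbOfFin_mem hLc i)
    have hj : e j ∈ (K : Set (Fin 11)) := by
      exact_mod_cast hL (L.orderEmbOfFin_mem hLc j)
    have hne' : e i ≠ e j := by
      intro h
      exact hij.ne (e.injective h)
    have := hK hi hj hne'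
    rw [SimpleGraph.sup_adj, SimpleGraph.fromEdgeSet_adj] at this
    unfold adjP
    rcases this with h | ⟨h, _⟩
    · have h' : adjB (e i) (e j) = true := h
      rw [h']; simp
    · rw [Set.mem_singleton_iff, Sym2.eq_iff] at h
      rcases h with ⟨h1, h2⟩ | ⟨h1, h2⟩
      · rw [h1, h2]; simp
      · rw [h1, h2]; simp
  have hlt : ∀ i j : Fin 4, i < j → e i < e j := fun i j h => e.strictMono h
  have := noK4 x hx y hxy hne (e 0) (e 1) (hlt 0 1 (by decide)) (hadj 0 1 (by decide))
    (e 2) (hlt 1 2 (by decide)) (hadj 0 2 (by decide)) (hadj 1 2 (by decide))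
    (e 3) (hlt 2 3 (by decide)) (hadj 0 3 (by decide)) (hadj 1 3 (by decide))
  rw [hadj 2 3 (by decide)] at this
  exact Bool.false_ne_true this.symm

/-- The negation of the preceding statement: For every finite nonempty perfect graph G that is uniquely χ(G)-colourable, some colour class of the colouring induces a connected subgraph of the graph of pairs whose added edge raises the clique number. -/
theorem result :
    ¬ (∀ (V : Type) [Fintype V] [Nonempty V] (G : SimpleGraph V) (k : ℕ),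
    (∀ S : Finset V, ∃ K : Finset V, K ⊆ S ∧ G.IsClique (K : Set V) ∧
        (G.induce (S : Set V)).Colorable K.card) →
    G.chromaticNumber = k →
    (∀ c c' : G.Coloring (Fin k), ∀ x y : V, c x = c y ↔ c' x = c' y) →
    ∀ c : G.Coloring (Fin k), ∃ i : Fin k,
      ((SimpleGraph.fromRel (fun x y : V => ∃ K : Finset V,
          (G ⊔ SimpleGraph.fromEdgeSet {s(x, y)}).IsClique (K : Set V) ∧
          ∀ T : Finset V, G.IsClique (T : Set V) → T.card < K.card)).induce
            {v : V | c v = i}).Connected) := by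
  intro H
  obtain ⟨i, hi⟩ := H (Fin 11) G 3 perfect chrom
    (fun c c' x y => (colouring_iff c x y).trans (colouring_iff c' x y).symm) col
  have key : ∀ x : Fin 11, x ∈ ([0, 4, 8] : List (Fin 11)) → ∀ w : Fin 11, cls x = i →
      cls w = i → x ≠ w → False := by
    intro x hx w hxi hwi hne
    have hreach := hi.preconnected ⟨x, hxi⟩ ⟨w, hwi⟩
    obtain ⟨p⟩ := hreach
    cases p with
    | nil => exact hne rfl
    | @cons _ v _ hadj _ =>
      have h1 := hadj
      rw [SimpleGraph.induce_adj, SimpleGraph.fromRel_adj] at h1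
      obtain ⟨hn, h2⟩ := h1
      have hv : cls v.1 = i := v.2
      rcases h2 with ⟨K, hK, hT⟩ | ⟨K, hK, hT⟩
      · exact not_crit x v.1 hx (hxi.trans hv.symm) hn K hK hT
      · rw [Sym2.eq_swap] at hK
        exact not_crit x v.1 hx (hxi.trans hv.symm) hn K hK hT
  have h3 : ∀ j : Fin 3, j = 0 ∨ j = 1 ∨ j = 2 := by decide
  have hi3 : i = 0 ∨ i = 1 ∨ i = 2 := h3 i
  rcases hi3 with rfl | rfl | rfl
  · exact key 0 (by decide) 1 (by decide) (by decide) (by decide)
  · exact key 4 (by decide) 5 (by decide) (by decide) (by decide)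
  · exact key 8 (by decide) 9 (by decide) (by decide) (by decide)

end Pool.Agent.S12344
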